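import Pool.Agent.Helper5.PQ.Stm

/-!
Package SPH of the project PQ (helper5, MP_cc0731_co): spheres in a family of sets of large minimum
degree.
-/

set_option autoImplicit false

namespace Pool.Agent.Helper31.PQ

open Finset Classical Pool.Agent.Helper5.RD Pool.Agent.Helper5.PQ

noncomputable section

/-- the sphere of radius `j` -/
def Sph (R : Finset ℕ) (F : Finset (Finset ℕ)) (T : Finset ℕ) (j : ℕ) : Finset (Finset ℕ) :=
  F.filter (fun T' => symmDiff T T' ⊆ R ∧ (symmDiff T T').card = j)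

theorem mem_sph {R : Finset ℕ} {F : Finset (Finset ℕ)} {T T' : Finset ℕ} {j : ℕ} :
    T' ∈ Sph R F T j ↔ T' ∈ F ∧ symmDiff T T' ⊆ R ∧ (symmDiff T T').card = j := by
  rw [Sph, mem_filter]

theorem symm_insert {A : Finset ℕ} {q : ℕ} (hq : q ∉ A) : symmDiff A {q} = insert q A := by
  ext x
  simp only [mem_symmDiff, mem_singleton, mem_insert]
  by_cases hx : x = q
  · subst hx; simp [hq]
  · simp [hx]

theorem step (R : Finset ℕ) (F : Finset (Finset ℕ)) (h : ℕ) (hF : ∀ T ∈ F, h ≤ Deg R F T)
    (T : Finset ℕ) (j : ℕ) : (Sph R F T j).card * (h - j) ≤ (Sph R F T (j + 1)).card * (j + 1) := by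
  refine card_mul_le_card_mul (fun a b : Finset ℕ => ∃ q, q ∉ symmDiff T a ∧ symmDiff a {q} = b)
    (fun a ha => ?_) (fun b hb => ?_)
  · obtain ⟨haF, haR, hac⟩ := mem_sph.1 ha
    have h1 : h - j ≤ ((R.filter (fun q => symmDiff a {q} ∈ F)) \ symmDiff T a).card := by
      refine le_trans ?_ (le_card_sdiff _ _)
      rw [hac]
      exact Nat.sub_le_sub_right (hF a haF) j
    refine h1.trans ?_
    refine card_le_card_of_injOn (fun q => symmDiff a {q}) (fun q hq => ?_) (fun q _ q' _ hqq => ?_)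
    · rw [mem_coe, mem_sdiff, mem_filter] at hq
      obtain ⟨⟨hqR, hqF⟩, hqn⟩ := hq
      rw [mem_coe, mem_bipartiteAbove]
      have h2 : symmDiff T (symmDiff a {q}) = insert q (symmDiff T a) := by
        rw [← symmDiff_assoc, symm_insert hqn]
      refine ⟨mem_sph.2 ⟨hqF, ?_, ?_⟩, q, hqn, rfl⟩
      · rw [h2]
        exact insert_subset hqR haR
      · rw [h2, card_insert_of_notMem hqn, hac]
    · exact singleton_injective (symmDiff_right_injective a hqq)
  · obtain ⟨hbF, hbR, hbc⟩ := mem_sph.1 hb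
    rw [← hbc]
    refine le_trans (card_le_card ?_) (card_image_le (s := symmDiff T b)
      (f := fun q => symmDiff b {q}))
    intro a ha
    rw [mem_bipartiteBelow] at ha
    obtain ⟨ha, q, hq, rfl⟩ := ha
    rw [mem_image]
    refine ⟨q, ?_, symmDiff_symmDiff_cancel_right _ _⟩
    rw [← symmDiff_assoc, symm_insert hq]
    exact mem_insert_self _ _

/-- Package SPH. -/
theorem sph : S_SPH := by
  intro R F h hF
  have h1 : ∀ T ∈ F, ∀ j : ℕ, h.choose j ≤ (Sph R F T j).card := by
    intro T hT j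
    induction j with
    | zero =>
      rw [Nat.choose_zero_right]
      refine card_pos.2 ⟨T, mem_sph.2 ⟨hT, ?_, ?_⟩⟩
      · rw [symmDiff_self]; exact empty_subset _
      · rw [symmDiff_self]; rfl
    | succ j ih =>
      have h2 := step R F h hF T j
      have h3 := Nat.choose_succ_right_eq h j
      have h4 : h.choose (j + 1) * (j + 1) ≤ (Sph R F T (j + 1)).card * (j + 1) := by
        rw [h3]
        exact (Nat.mul_le_mul_right _ ih).trans h2
      exact Nat.le_of_mul_le_mul_right h4 (Nat.succ_pos j)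
  refine ⟨h1, fun ⟨T, hT⟩ => ?_⟩
  rw [← Nat.sum_range_choose]
  refine (sum_le_sum fun j _ => h1 T hT j).trans ?_
  have h5 := card_eq_sum_card_fiberwise (f := fun T' => (symmDiff T T').card)
    (s := F.filter (fun T' => symmDiff T T' ⊆ R ∧ (symmDiff T T').card < h + 1))
    (t := range (h + 1)) (fun x hx => by
      rw [mem_coe, mem_filter] at hx
      exact mem_coe.2 (mem_range.2 hx.2.2))
  refine le_trans (le_of_eq ?_) (card_filter_le F
    (fun T' => symmDiff T T' ⊆ R ∧ (symmDiff T T').card < h + 1))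
  rw [h5]
  refine sum_congr rfl fun j hj => ?_
  congr 1
  ext x
  rw [mem_sph, mem_filter, mem_filter]
  constructor
  · rintro ⟨a, b, c⟩
    exact ⟨⟨a, b, by rw [c]; exact mem_range.1 hj⟩, c⟩
  · rintro ⟨⟨a, b, _⟩, c⟩
    exact ⟨a, b, c⟩

end

end Pool.Agent.Helper31.PQ
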