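import Pool.Agent.Helper5.PQ.Stm

/-!
Package UC of the project PQ (helper5, MP_cc0731_co): unfinished runs.
-/

set_option autoImplicit false

namespace Pool.Agent.Helper31.PQ

open Finset Classical Pool.Agent.Helper5.RD Pool.Agent.Helper5.PQ

noncomputable section

/-- Package UC. -/
theorem uc (hB2 : S_B2) (hS : S_SPH) : S_UC := by
  intro P γ hγ h1 h01 R ps hR hnd hpr A1 h hA X B hX b hb
  set M : ℝ := (1 + (P.K0 : ℝ) ^ (-γ)) ^ ps.length * ((X.card : ℝ) * B.card) ^ γ with hM
  have hM0 : 0 ≤ M := by positivity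
  set Q1 : Finset ℕ := ps.toFinset with hQ1
  let φ : ℕ × Finset ℕ → ℕ × Finset ℕ := fun z => (z.1, z.2 \ Q1)
  let bad : ℕ × Finset ℕ → Prop := fun z =>
    ¬ Fin1 P (run P (ps.zip (lst ps z.2)) (X, B) ((xp R z : ℕ) : ℤ) b)
  have hxp : ∀ z z' : ℕ × Finset ℕ, φ z = φ z' → xp R z = xp R z' := by
    intro z z' hz
    have e1 : z.1 = z'.1 := (Prod.ext_iff.1 hz).1
    have e2 : z.2 \ Q1 = z'.2 \ Q1 := (Prod.ext_iff.1 hz).2
    have e3 : ∀ w : ℕ × Finset ℕ, w.2 \ R = (w.2 \ Q1) \ R := by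
      intro w
      ext x
      simp only [mem_sdiff]
      constructor
      · rintro ⟨a, c⟩
        exact ⟨⟨a, fun hx => c (hR hx)⟩, c⟩
      · rintro ⟨⟨a, _⟩, c⟩
        exact ⟨a, c⟩
    unfold xp
    rw [e1, e3 z, e3 z', e2]
  have key : ∀ κ ∈ A1.image φ, (2 : ℝ) ^ h *
      (((A1.filter bad).filter (fun z => φ z = κ)).card : ℝ) ≤
      ((A1.filter (fun z => φ z = κ)).card : ℝ) * M := by
    intro κ hκ
    obtain ⟨z0, hz0, hφ0⟩ := mem_image.1 hκ
    set Fb := A1.filter (fun z => φ z = κ) with hFb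
    let G : Finset (Finset ℕ) := Fb.image (fun z => z.2 ∩ Q1)
    have hdeg : ∀ T ∈ G, h ≤ Deg Q1 G T := by
      intro T hT
      obtain ⟨z, hz, rfl⟩ := mem_image.1 hT
      rw [hFb, mem_filter] at hz
      refine (hA z hz.1).trans (card_le_card ?_)
      intro q hq
      rw [mem_filter] at hq ⊢
      refine ⟨hq.1, mem_image.2 ⟨(z.1, symmDiff z.2 {q}), ?_, ?_⟩⟩
      · rw [hFb, mem_filter]
        refine ⟨hq.2, ?_⟩
        rw [← hz.2]
        change (z.1, symmDiff z.2 {q} \ Q1) = (z.1, z.2 \ Q1)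
        congr 1
        ext x
        simp only [mem_sdiff, mem_symmDiff, mem_singleton]
        by_cases hx : x = q
        · subst hx
          simp [hq.1]
        · simp [hx]
      · change symmDiff z.2 {q} ∩ Q1 = symmDiff (z.2 ∩ Q1) {q}
        ext x
        simp only [mem_inter, mem_symmDiff, mem_singleton]
        by_cases hx : x = q
        · subst hx
          simp [hq.1]
        · simp [hx]
    have hGne : G.Nonempty := by
      refine ⟨z0.2 ∩ Q1, mem_image.2 ⟨z0, ?_, rfl⟩⟩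
      rw [hFb, mem_filter]
      exact ⟨hz0, hφ0⟩
    have h2 : 2 ^ h ≤ Fb.card := ((hS Q1 G h hdeg).2 hGne).trans card_image_le
    have h3 : (((A1.filter bad).filter (fun z => φ z = κ)).card : ℝ) ≤ M := by
      let E : Finset (List ℕ) := Fb.image (fun z => lst ps z.2)
      have h4 := hB2 P γ hγ h1 h01 ps hpr ((xp R z0 : ℕ) : ℤ) b (X, B) (hX z0 hz0) hb E (by
        intro l hl
        obtain ⟨z, _, rfl⟩ := mem_image.1 hl
        refine ⟨?_, ?_⟩
        · rw [lst, List.length_map]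
        · intro e he
          rw [lst, List.mem_map] at he
          obtain ⟨p, _, rfl⟩ := he
          split_ifs
          · exact le_rfl
          · exact Nat.zero_le _)
      refine le_trans (Nat.cast_le.2 ?_) h4
      refine card_le_card_of_injOn (fun z => lst ps z.2) ?_ ?_
      · intro z hz
        rw [mem_coe, mem_filter, mem_filter] at hz
        obtain ⟨⟨hzA, hzb⟩, hzκ⟩ := hz
        rw [mem_coe, mem_filter]
        refine ⟨mem_image.2 ⟨z, ?_, rfl⟩, ?_⟩
        · rw [hFb, mem_filter]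
          exact ⟨hzA, hzκ⟩
        · rw [← hxp z z0 (hzκ.trans hφ0.symm)]
          exact hzb
      · intro z hz z' hz' hzz
        rw [mem_coe, mem_filter, mem_filter] at hz hz'
        have e0 : φ z = φ z' := hz.2.trans hz'.2.symm
        have e1 : z.1 = z'.1 := (Prod.ext_iff.1 e0).1
        have e2 : z.2 \ Q1 = z'.2 \ Q1 := (Prod.ext_iff.1 e0).2
        have e3 : ∀ p ∈ ps, (p ∈ z.2 ↔ p ∈ z'.2) := by
          intro p hp
          have h5 : (if p ∈ z.2 then 1 else 0 : ℕ) = if p ∈ z'.2 then 1 else 0 :=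
            List.map_inj_left.1 hzz p hp
          by_cases ha : p ∈ z.2 <;> by_cases hb' : p ∈ z'.2 <;> simp_all
        refine Prod.ext e1 ?_
        ext x
        by_cases hx : x ∈ Q1
        · exact e3 x (List.mem_toFinset.1 hx)
        · have h6 : x ∈ z.2 \ Q1 ↔ x ∈ z'.2 \ Q1 := by rw [e2]
          simpa [mem_sdiff, hx] using h6
    calc (2 : ℝ) ^ h * (((A1.filter bad).filter (fun z => φ z = κ)).card : ℝ)
        ≤ (2 : ℝ) ^ h * M := by gcongr
      _ ≤ (Fb.card : ℝ) * M := by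
        gcongr
        exact_mod_cast h2
  have hs1 : (A1.filter bad).card = ∑ κ ∈ A1.image φ,
      ((A1.filter bad).filter (fun z => φ z = κ)).card :=
    card_eq_sum_card_fiberwise fun z hz =>
      mem_coe.2 (mem_image_of_mem φ (mem_filter.1 (mem_coe.1 hz)).1)
  have hs2 : A1.card = ∑ κ ∈ A1.image φ, (A1.filter (fun z => φ z = κ)).card :=
    card_eq_sum_card_fiberwise fun z hz => mem_coe.2 (mem_image_of_mem φ (mem_coe.1 hz))
  have hfin : (2 : ℝ) ^ h * ((A1.filter bad).card : ℝ) ≤ (A1.card : ℝ) * M := by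
    rw [hs1, hs2, Nat.cast_sum, Nat.cast_sum, mul_sum, sum_mul]
    exact sum_le_sum key
  exact hfin

end

end Pool.Agent.Helper31.PQ
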